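import Pool.Agent.X265.Ctr.Nuc

/-!
# Contracting self-similar groups

`C` is any class of groups with the closure properties `ClosedE C`, all of which are known for the
class of the groups that satisfy the K- and L-theoretic Farrell–Jones conjecture with coefficients
and finite wreath products. For a torsion-free group `π` of this class the assembly map of every
aspherical complex with fundamental group `π` is an equivalence.

`X` is an alphabet, finite or infinite, and `P` a group of permutations of `X` which is in `C` (for
finite `X` one can take all permutations). `LocIn P g`: all vertex permutations of the automorphism
`g` of the tree `X^*` are in `P`, and at every vertex there are only finitely many different sections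
of `g` one level below (for finite `X` and `P = ⊤` this is no condition).

`Absorbing f N`: the set `N` of elements of the group `G` of automorphisms of `X^*` contains `1`,
inverses and sections, and every element of `G` has all its sections of some level in `N`. For example
`N` is the nucleus of a contracting group `G`; but `N` may be infinite.

`NucGroup N`: the group with the generators `N` and all relations `a b = c`, `a, b, c ∈ N`, which hold
in `G`; for finite `N` it is finitely presented.

Outline of the proof. The sections define a recursion on `NucGroup N`. Every element of `NucGroup N`
has all its sections of some level among the generators, and a generator which acts trivially on the
tree is trivial. So the kernel of the action of `NucGroup N` on the tree is the union of the kernels of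
the iterated recursion, and the group generated by `N` is the directed colimit of subgroups of
iterated wreath products of `NucGroup N` with `P`. All elements of `G` have their sections of some
level in this group.
-/

set_option autoImplicit false

namespace Pool.Agent.Results.MP_98022b_gt.ContractingGroups

open Pool.Agent.Y110.FJ Pool.Agent.X265.Ctr
open Pool.Agent.Y462.SS (IsTree)

/-- Let `C` be a class of groups with the closure properties `ClosedE C`, `X` a finite or infinite set
and `P` in `C` a group of permutations of `X`. Let `G` be a group of automorphisms of the tree `X^*`
with vertex permutations in `P` and finitely many different sections below every vertex, and let `N`
be an absorbing set of `G`, for instance the nucleus if `G` is contracting. If the group with the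
generators `N` and the relations `a b = c` (`a, b, c ∈ N`) which hold in `G` is in `C`, then `G` is in
`C`. -/
theorem result (C : ∀ (G : Type) [Group G], Prop) (hC : ClosedE C) (X : Type)
    (P : Subgroup (Equiv.Perm X)) (hP : C P) (G : Type) [Group G]
    (f : G →* Equiv.Perm (List X)) (hf : Function.Injective f) (hT : ∀ g, IsTree (f g))
    (hL : ∀ g, LocIn P (f g)) (N : Set G) (hN : Absorbing f N) (hCN : C (NucGroup N)) : C G :=
  nucleus hC hP G f hf hT hL N hN hCN

end Pool.Agent.Results.MP_98022b_gt.ContractingGroups
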