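import Pool.Agent.X176.FJ.Supp

/-!
# Semidirect products `N ⋊ Γ` for groups `N` with a system of retractions

`C` is any class of groups with the closure properties `ClosedE C`, all of which are known for the
class of the groups that satisfy the K- and L-theoretic Farrell–Jones conjecture with coefficients
and finite wreath products. For a torsion-free group `π` of this class the assembly map of every
aspherical complex with fundamental group `π` is an equivalence.

`RSys Γ N V`: the group `Γ` acts on the group `N` and on the set `V`, and `N` has endomorphisms `e_S`,
`S ⊆ V`, with `e_S e_T = e_{S ∩ T}` and `γ e_S = e_{γ S} γ`, such that each element of `N` is fixed by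
`e_S` for some finite `S`. `Tame`: if `γ` preserves a finite set `D`, then a positive power of `γ` acts
on the image of `e_D` as an inner automorphism of `N`.

Examples: `N` the graph product of copies of any group over any `Γ`-invariant graph on `V` (for the
complete graph these are the permutational wreath products), even Artin and Coxeter groups with
generators permuted by `Γ`, free groups of all varieties, finitary linear groups, groups of basis
conjugating automorphisms, each with an infinite index set `V` on which `Γ` acts arbitrarily.

Outline of the proof. Let `S ⊆ V` be finite and `γ ∈ Γ`. The maps `(γ e_S)^i` and `(γ⁻¹ e_{γ S})^i` of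
`N` for `|i| ≤ M` and a cyclic shift, corrected by an inner automorphism, realize conjugation by `γ` on
the image of `e_S` in a wreath product of `N` with a finite cyclic group. By the criterion for locally
realizable extensions `N ⋊ Γ` is in `C`.
-/

set_option autoImplicit false

namespace Pool.Agent.Results.MP_98022b_gt.RetractionSystems

open Pool.Agent.Y110.FJ Pool.Agent.X176.FJ

/-- Let `C` be a class of groups with the closure properties `ClosedE C` and let `Γ` act on the group
`N` with a tame system of retractions indexed by the subsets of a `Γ`-set `V`. Then `N ⋊ Γ` is in `C`
if and only if `N` and `Γ` are in `C`. -/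
theorem result (C : ∀ (G : Type) [Group G], Prop) (hC : ClosedE C) (Γ N V : Type) [Group Γ]
    [Group N] [MulAction Γ V] (s : RSys Γ N V) (ht : s.Tame) :
    C (N ⋊[s.φ] Γ) ↔ C N ∧ C Γ :=
  ⟨fun h => ⟨hC.base.of_injective _ _ _ SemidirectProduct.inl_injective h,
    hC.base.of_injective _ _ _ SemidirectProduct.inr_injective h⟩,
    fun h => supp hC s ht h.1 h.2⟩

end Pool.Agent.Results.MP_98022b_gt.RetractionSystems
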