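import Pool.Agent.Y363.PW.L
import Pool.Agent.X175.Nov.Tfa

/-!
# The rational assembly map in L-theory and transfers along almost equal cocycles

`lgrp ε S` is the functor `G ↦ L₀(ℤ[G × S]; ε) ⊗ ℚ` (nonsingular `ε`-quadratic forms on finitely
generated projective modules modulo hyperbolic ones), `S` is an arbitrary group, and
`α_b : H_{d(b)}(G; ℚ) → L₀(ℤ[G × S]; ε) ⊗ ℚ`, `b ∈ B`, is any family of transformations natural in the
group `G`, for instance the components of the rational assembly map; `tb d α G` is the sum of
the `α_b`, defined on `HB d G = ⨁_b H_{d(b)}(G; ℚ)`.

`FinPair G A K`: an action of the group `G` on a set `A` and two cocycles `c, d : G × A → K` with values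
in a group `K`, such that for each `g` one has `c(g, a) = d(g, a)` for all but finitely many `a`. It
transfers a homogeneous cochain `F` of `K` to the cochain `tF κ F` of `G`, whose value at
`(x₀, …, xₙ)` is the sum over `b ∈ A` of the differences of the values of `F` at the tuples
`c(xⱼ, xⱼ⁻¹ b)` and `d(xⱼ, xⱼ⁻¹ b)`.

Let `C` be a class of groups closed under products such that the total map is injective for the groups
`K × ℤ^m`, `K ∈ C` (for the assembly map `C` can be the class of the trivial group, or the class of
all groups known to satisfy the L-theoretic Farrell–Jones conjecture). `Cx C` is the class of the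
products of a group in `C` and a torsion-free commutative group, and `Gen (Cx C)` is the smallest
family of cochains of all groups which contains all cocycles of the groups in `Cx C` and is closed
under pullbacks, transfers, cup products, linear combinations and pointwise limits. For every group
`G` the classes in the kernel of the total map of `G` are orthogonal to all cochains of `G` in this
family. Here chains are evaluated on the vertices `vt g = (1, g₁, g₁ g₂, …)` of the simplices.

Outline of the proof. The transfer of cochains is dual to a chain map; the induced map on homology
commutes with the total maps, for a suitable map of the L-groups. To see this one embeds `G` in the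
semidirect product of the group of the functions `A → K` of finite support and `G`, whose homology
is generated by alternating sums of restrictions to finite subsets of `A`, for which the
transfer in L-theory is known. Torsion-free commutative groups are handled by the continuity of
L-theory, and cup products by transfers with an auxiliary factor.
-/

set_option autoImplicit false

namespace Pool.Agent.Results.MP_98022b_gt.TransferredClasses

open CategoryTheory Pool.Agent.Y483 Pool.Agent.Y75.MQ Pool.Agent.Y483.PW Pool.Agent.X175.Nov

theorem result (ε : ℤˣ) (S : Type) [Group S] {B : Type} {d : B → ℕ}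
    (α : ∀ b : B, hq (d b) ⟶ lgrp ε S) (C : (K : Type) → [Group K] → Prop)
    (hC : ∀ (K K' : Type) [Group K] [Group K'], C K → C K' → C (K × K'))
    (hα : ∀ (K : Type) [Group K], C K → ∀ (m : ℕ) (x : HB d (K × Zm m)),
      tb d α (K × Zm m) x = 0 → x = 0)
    (G : Type) [Group G] (n : ℕ) (F : (ℕ → G) → ℝ) (hF : Gen (Cx C) G n F)
    (x : HB d G) (hx : tb d α G x = 0) (b : B) (hb : d b = n) (z : T (d b) G ℚ)
    (hz : Rpr (Rep.trivial ℚ G ℚ) (d b) z (x b)) :
    (z.sum fun g q => (q : ℝ) * F (vt g)) = 0 := by
  rw [← ev_eq_sum]
  exact hF.kill (Pool.Agent.Y363.PW.hasPT_lgrp ε S) (cx_prod hC)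
    (fun K _ hK => inj_cx (ctn_lgrp ε S) hα K hK) x hx b hb z hz

end Pool.Agent.Results.MP_98022b_gt.TransferredClasses
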