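import Pool.Agent.X265.Ver.Emb

/-!
# Quotients `G / V(R)` for normal subgroups `R` of free products and arbitrary varieties `V`

`C` is any class of groups with the closure properties `ClosedE C`, all of which are known for the
class of the groups that satisfy the K- and L-theoretic Farrell–Jones conjecture with coefficients
and finite wreath products. For a torsion-free group `π` of this class the assembly map of every
aspherical complex with fundamental group `π` is an equivalence.

`verb W G` is the verbal subgroup of a group `G` given by a set `W` of words (in the letters
`0, 1, 2, ...`): it is generated by all values of the words of `W` in `G`. `verbIn W R` is the verbal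
subgroup of the subgroup `R`, as a subgroup of the whole group. `FrP X A` is the free product of the
free group on the set `X` and the groups `A i`, `i ∈ I`, for any set `I`, and `ia i` is the inclusion
of `A i`.

For an empty family this is about quotients `F / W(R)` of free groups `F`, where `F / R` is any group
in `C`; with `R = U(F)` for another variety it gives the relatively free groups of product varieties.

Outline of the proof. Let `Q = G / R` and let `E` be the free group on the set `(X ∪ I) × Q`. There is an
embedding of `G` in `E ⋊ Q` (Magnus, Shmelkin) with `x ↦ ((x, 1), xR)` and
`a ↦ ((i, 1) (i, aR)⁻¹, aR)` for `a ∈ A i`, which makes `R` a retract of `E`. So `G / V(R)` embeds in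
`E / V(E) ⋊ Q`. The relatively free group `E / V(E)` with the endomorphisms which kill generators is a
system of retractions, and the semidirect product is in `C`.
-/

set_option autoImplicit false

namespace Pool.Agent.Results.MP_98022b_gt.VerbalQuotients

open Pool.Agent.Y110.FJ Pool.Agent.X265.Ver

/-- Let `C` be a class of groups with the closure properties `ClosedE C` and let `W` be a set of words
such that the relatively free group of countable rank of the variety defined by `W` is in `C`. Let `G`
be the free product of a free group and of any family of groups `A i`, and let `R` be a normal subgroup
of `G` with `G / R` in `C` which meets each `A i` trivially. Then `G / W(R)` is in `C`. -/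
theorem result (C : ∀ (G : Type) [Group G], Prop) (hC : ClosedE C) (W : Set (FreeGroup ℕ))
    (hW : C (FreeGroup ℕ ⧸ verb W (FreeGroup ℕ))) (X I : Type) (A : I → Type) [∀ i, Group (A i)]
    (R : Subgroup (FrP X A)) [R.Normal] (hA : ∀ i (a : A i), ia i a ∈ R → a = 1)
    (hR : C (FrP X A ⧸ R)) : C (FrP X A ⧸ verbIn W R) :=
  c_quot R W hC hW hA hR

end Pool.Agent.Results.MP_98022b_gt.VerbalQuotients
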